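import Mathlib
import Pool.Agent.Lib.helper22.H10e

namespace Pool.Agent.Results.MP_9c9736_lc.Sym

open Finset

/-- value at `x` of the polynomial `g` in the power sums `p_1, p_2, ...` -/
def val (g : List (ℚ × List ℕ)) {d : ℕ} (x : Fin d → ℝ) : ℝ :=
  (g.map fun t => (t.1 : ℝ) * (t.2.map fun i => ∑ j, x j ^ (i + 1)).prod).sum

def Hom (g : List (ℚ × List ℕ)) : Prop := ∃ e : ℕ, ∀ (d : ℕ) (x : Fin d → ℝ) (c : ℝ), val g (c • x) = c ^ e * val g x

def ex (n : ℕ) (g : List (ℕ × ℚ × List ℕ)) : List (ℚ × List ℕ) := g.flatMap fun t => List.replicate (n ^ t.1) t.2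

def Rep (F : ℕ → ∀ d, (Fin d → ℝ) → ℝ) : Prop := ∃ g, ∀ n d x, val (ex n g) x = F n d x

theorem val_ex (n g) {d} (x : Fin d → ℝ) : val (ex n g) x =
    (g.map fun t => (n : ℝ) ^ t.1 * t.2.1 * (t.2.2.map fun i => ∑ j, x j ^ (i + 1)).prod).sum := by
  induction g with
  | nil => rfl
  | cons t g ih => simp_all [val, ex, mul_assoc]

variable {F G : ℕ → ∀ d, (Fin d → ℝ) → ℝ}

theorem Rep.const (c : ℚ) : Rep fun _ _ _ => c := ⟨[(0, c, [])], by simp [val_ex]⟩
theorem Rep.par : Rep fun n _ _ => n := ⟨[(1, 1, [])], by simp [val_ex]⟩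
theorem Rep.add : Rep F → Rep G → Rep fun n d x => F n d x + G n d x
  | ⟨g, h⟩, ⟨g', k⟩ => ⟨g ++ g', by simp_all [val_ex]⟩
theorem Rep.mul : Rep F → Rep G → Rep fun n d x => F n d x * G n d x
  | ⟨g, h⟩, ⟨g', k⟩ => ⟨g.flatMap fun s => g'.map fun t => (s.1 + t.1, s.2.1 * t.2.1, s.2.2 ++ t.2.2), fun n d x => by
    simp only [← h, ← k, val_ex]
    clear h k
    induction g with
    | nil => simp
    | cons s g ih =>
      simp only [List.flatMap_cons, List.map_append, List.sum_append, ih, List.map_cons, List.sum_cons, add_mul, List.map_map]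
      congr 1
      rw [← List.sum_map_mul_left]
      refine congrArg _ (List.map_congr_left fun t _ => ?_)
      simp [pow_add]
      ring⟩
theorem Rep.sum {ι : Type} (s : Finset ι) {F : ι → ℕ → ∀ d, (Fin d → ℝ) → ℝ} (h : ∀ i, Rep (F i)) :
    Rep fun n d x => ∑ i ∈ s, F i n d x := by
  classical
  induction s using Finset.induction_on with
  | empty => simpa using Rep.const 0
  | insert a s ha ih => simpa [sum_insert ha] using (h a).add ih
theorem Rep.ps (q : Polynomial ℚ) (h : q.eval 0 = 0) : Rep fun _ _ x => ∑ j, Polynomial.aeval (x j) q := by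
  obtain ⟨r, rfl⟩ := (Polynomial.X_dvd_iff (f := q)).2 (by rwa [Polynomial.coeff_zero_eq_eval_zero])
  clear h
  induction r using Polynomial.induction_on' with
  | add p q i j => simpa [mul_add, sum_add_distrib] using i.add j
  | monomial i c => exact ⟨[(0, c, [i])], by simp [val_ex, mul_sum, pow_succ', mul_left_comm]⟩

theorem rnd (l : ℝ) : ∃ m : ℕ, |m - l ^ 2 * (3 - 2 * l)| ≤ 8 * (l * (l - 1)) ^ 2 := by
  have k : ∀ l : ℝ, l ≤ 1 / 2 → |l ^ 2 * (3 - 2 * l)| ≤ 8 * (l * (l - 1)) ^ 2 := fun l h => by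
    rw [abs_of_nonneg (by nlinarith [sq_nonneg l])]
    nlinarith [mul_nonneg (sq_nonneg l) (by nlinarith : 0 ≤ 8 * (l - 1) ^ 2 - (3 - 2 * l))]
  rcases le_total l (1 / 2) with h | h
  · exact ⟨0, by simpa using k l h⟩
  · exact ⟨1, by convert k (1 - l) (by linarith) using 2 <;> push_cast <;> ring⟩

theorem lip {V : Type} {N : V → ℕ → ∀ d, (Fin d → ℝ) → ℝ} {T : ℕ → ∀ d, (Fin d → ℝ) → ℝ} (hN : ∀ i, Rep (N i)) (hT : Rep T)
    (Q : MvPolynomial V ℤ) : Rep (fun n d x => MvPolynomial.aeval (fun i => N i n d x) Q) ∧ ∃ B G, Rep B ∧ Rep G ∧ ∀ n d x (m : V → ℝ),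
      0 ≤ T n d x → (∀ i, |m i - N i n d x| ≤ T n d x) → |MvPolynomial.aeval (fun i => N i n d x) Q| ≤ B n d x ∧ 0 ≤ G n d x ∧
        |MvPolynomial.aeval m Q - MvPolynomial.aeval (fun i => N i n d x) Q| ≤ T n d x * G n d x := by
  induction Q using MvPolynomial.induction_on with
  | C a => exact ⟨by simpa using Rep.const a, _, _, .const |a|, .const 0, by simp⟩
  | add p q i j =>
    obtain ⟨a, B, G, b, g, h⟩ := i
    obtain ⟨a', B', G', b', g', h'⟩ := j
    refine ⟨by simpa using a.add a', _, _, b.add b', g.add g', fun n d x m t k => ?_⟩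
    obtain ⟨h1, h2, h3⟩ := h n d x m t k
    obtain ⟨k1, k2, k3⟩ := h' n d x m t k
    simp only [map_add, abs_le] at *
    refine ⟨⟨?_, ?_⟩, ?_, ?_, ?_⟩ <;> linarith
  | mul_X p i ih =>
    obtain ⟨a, B, G, b, g, h⟩ := ih
    have s := ((hN i).mul (hN i)).add (.const 1)
    refine ⟨by simpa using a.mul (hN i), _, _, b.mul s, (g.mul (s.add hT)).add b, fun n d x m t k => ?_⟩
    obtain ⟨h1, h2, h3⟩ := h n d x m t k
    have s1 : |N i n d x| ≤ N i n d x * N i n d x + 1 := abs_le.2 ⟨by nlinarith, by nlinarith⟩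
    have s2 : |m i| ≤ N i n d x * N i n d x + 1 + T n d x := by linarith [abs_sub_abs_le_abs_sub (m i) (N i n d x), k i]
    have b0 := (abs_nonneg _).trans h1
    simp only [map_mul, MvPolynomial.aeval_X, Rat.cast_one, abs_mul]
    refine ⟨mul_le_mul h1 s1 (abs_nonneg _) b0, add_nonneg (mul_nonneg h2 ((abs_nonneg _).trans s2)) b0, ?_⟩
    generalize MvPolynomial.aeval m p = u at *
    generalize MvPolynomial.aeval (fun i => N i n d x) p = v at *
    rw [show u * m i - v * N i n d x = (u - v) * m i + v * (m i - N i n d x) by ring]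
    refine (abs_add_le _ _).trans ?_
    rw [abs_mul, abs_mul]
    nlinarith [mul_le_mul h3 s2 (abs_nonneg _) (mul_nonneg t h2), mul_le_mul h1 (k i) (abs_nonneg _) b0]

theorem main : ∃ (S : ℕ → Prop) (g : List (ℕ × ℚ × List ℕ)), ¬ ComputablePred S ∧ ∀ n,
    (S n → ∃ (d : ℕ) (x : Fin d → ℝ), x ≠ 0 ∧ val (ex n g) x < 0) ∧ (¬ S n → ∀ (d : ℕ) (x : Fin d → ℝ), 0 < val (ex n g) x) := by
  obtain ⟨k, Q, hQ⟩ := Lib.H10.h10
  let l : Fin k → Polynomial ℚ := fun i => Lagrange.basis (range (k + 2)) (↑) (i + 1 : ℕ)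
  have inj : Set.InjOn (Nat.cast : ℕ → ℚ) (range (k + 2)) := Nat.cast_injective.injOn
  have hl : ∀ (i : Fin k), ∀ a < k + 2, (l i).eval (a : ℚ) = if a = i + 1 then 1 else 0 := fun i a h => by
    split_ifs with e
    · exact e ▸ Lagrange.eval_basis_self inj (by simp)
    · exact Lagrange.eval_basis_of_ne (Ne.symm e) (by simpa)
  have l0 : ∀ i, (l i).eval 0 = 0 := fun i => by simpa using hl i 0 (by simp)
  let N : Unit ⊕ Fin k → ℕ → ∀ d, (Fin d → ℝ) → ℝ :=
    Sum.elim (fun _ n _ _ => n) fun i _ _ x => ∑ j, Polynomial.aeval (x j) (l i ^ 2 * (3 - 2 * l i))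
  let T : ℕ → ∀ d, (Fin d → ℝ) → ℝ := fun _ _ x => ∑ i, ∑ j, Polynomial.aeval (x j) (8 * (l i * (l i - 1)) ^ 2)
  have hT : Rep T := .sum _ fun i => .ps _ (by simp [l0])
  obtain ⟨a, B, G, -, g, h⟩ := lip (N := N) (by rintro (_ | i); exacts [.par, .ps _ (by simp [l0])]) hT Q
  obtain ⟨f, hf⟩ := ((a.mul a).add ((hT.mul g).mul (hT.mul g))).add (.const (-1 / 4))
  refine ⟨_, f, hQ, fun n => ⟨fun ⟨t, ht⟩ => ?_, fun hn d x => ?_⟩⟩
  · let e := Fintype.equivFin (Option (Σ i, Fin (t i)))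
    let y : Option (Σ i, Fin (t i)) → ℕ := fun o => o.elim k (·.1) + 1
    have v : ∀ i o, Polynomial.aeval (y o : ℝ) (l i) = if y o = i + 1 then 1 else 0 := fun i o => by
      rw [show (y o : ℝ) = algebraMap ℚ ℝ (y o) by simp, Polynomial.aeval_algebraMap_apply, Polynomial.coe_aeval_eq_eval,
        hl i _ (by rcases o with _ | o <;> simp [y])]
      split_ifs <;> simp
    refine ⟨_, fun j => y (e.symm j), fun z => Nat.succ_ne_zero _ (Nat.cast_eq_zero.1 (congrFun z (e none))), ?_⟩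
    have t0 : T n _ (fun j => y (e.symm j)) = 0 := sum_eq_zero fun i _ => sum_eq_zero fun j _ => by
      simp only [map_mul, map_pow, map_sub, v]
      split_ifs <;> simp
    have n0 : (fun i => N i n _ fun j => y (e.symm j)) = algebraMap ℤ ℝ ∘ Sum.elim (fun _ => (n : ℤ)) fun i => t i := by
      ext (_ | i)
      · simp [N]
      simp only [N, Sum.elim_inr]
      rw [e.symm.sum_comp fun o => Polynomial.aeval (y o : ℝ) (l i ^ 2 * (3 - 2 * l i))]
      have : ∀ o, Polynomial.aeval (y o : ℝ) (l i ^ 2 * (3 - 2 * l i)) = if y o = i + 1 then 1 else 0 := fun o => by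
        simp only [map_mul, map_pow, map_sub, v, map_ofNat]
        split_ifs <;> norm_num
      simp only [this, Fintype.sum_option, Fintype.sum_sigma]
      simp [y, Fin.val_inj, i.is_lt.ne']
    simp only [hf, t0, n0, MvPolynomial.aeval_algebraMap_apply, MvPolynomial.aeval_eq_eval, ht]
    norm_num
  · choose r hr using fun i j => rnd (Polynomial.aeval (x j) (l i))
    have p : ∀ i j, 0 ≤ Polynomial.aeval (x j) (8 * (l i * (l i - 1)) ^ 2) := fun i j => by
      simp only [map_mul, map_pow, map_ofNat]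
      positivity
    have t0 : 0 ≤ T n d x := sum_nonneg fun i _ => sum_nonneg fun j _ => p i j
    obtain ⟨-, -, h⟩ := h n d x (algebraMap ℤ ℝ ∘ Sum.elim (fun _ => (n : ℤ)) fun i => (∑ j, r i j : ℕ)) t0 (by
      rintro (_ | i)
      · simpa [N] using t0
      refine le_trans ?_ (single_le_sum (f := fun i => ∑ j, Polynomial.aeval (x j) (8 * (l i * (l i - 1)) ^ 2))
        (fun i _ => sum_nonneg fun j _ => p i j) (mem_univ i))
      simp only [N, Sum.elim_inr, Function.comp, algebraMap_int_eq, eq_intCast, Int.cast_natCast]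
      rw [Nat.cast_sum, ← sum_sub_distrib]
      exact (abs_sum_le_sum_abs _ _).trans (sum_le_sum fun j _ => by simpa [map_ofNat] using hr i j))
    rw [MvPolynomial.aeval_algebraMap_apply, MvPolynomial.aeval_eq_eval] at h
    have z := Int.one_le_abs fun z => hn ⟨fun i => ∑ j, r i j, z⟩
    simp only [hf]
    generalize MvPolynomial.eval _ Q = u at h z
    have z : (1 : ℝ) ≤ |(u : ℝ)| := by exact_mod_cast z
    generalize MvPolynomial.aeval (fun i => N i n d x) Q = v at h
    have := abs_sub_abs_le_abs_sub (u : ℝ) v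
    simp only [algebraMap_int_eq, eq_intCast] at h
    push_cast
    nlinarith [sq_nonneg (|v| - T n d x * G n d x), abs_mul_abs_self v, abs_nonneg v]

theorem result : (¬ ComputablePred fun g : List (ℚ × List ℕ) => ∀ (d : ℕ) (x : Fin d → ℝ), 0 ≤ val g x) ∧
    ¬ ComputablePred fun g : List (ℚ × List ℕ) => ∀ (d : ℕ) (x : Fin d → ℝ), (Hom g → x ≠ 0) → 0 < val g x := by
  obtain ⟨S, g, hS, h⟩ := main
  have q : Primrec fun a : ℕ × ℕ × ℚ × List ℕ => List.replicate (a.1 ^ a.2.1) a.2.2 := (Primrec.list_map (Primrec.list_range.comp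
    ((Primrec₂.unpaired'.1 Nat.Primrec.pow).comp .fst (Primrec.fst.comp .snd))) (Primrec.snd.comp (Primrec.snd.comp .fst)).to₂).of_eq
      (by simp)
  have p : Primrec fun n => ex n g := Primrec.list_flatMap (.const g) q.to₂
  constructor <;> intro c <;> obtain ⟨f, hf, e⟩ := ComputablePred.computable_iff.1 c <;>
    refine hS (ComputablePred.computable_iff.2 ⟨fun n => !f (ex n g), Primrec.not.to_comp.comp (hf.comp p.to_comp),
      funext fun n => propext ?_⟩) <;> rw [Bool.not_eq_true', ← Bool.not_eq_true, ← congrFun e]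
  · refine ⟨fun s q => ?_, fun q => by_contra fun s => q fun d x => ((h n).2 s d x).le⟩
    obtain ⟨d, x, -, z⟩ := (h n).1 s
    exact z.not_ge (q d x)
  · refine ⟨fun s q => ?_, fun q => by_contra fun s => q fun d x _ => (h n).2 s d x⟩
    obtain ⟨d, x, y, z⟩ := (h n).1 s
    exact z.not_gt (q d x fun _ => y)

end Pool.Agent.Results.MP_9c9736_lc.Sym
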